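import Pool.Agent.W728.PK.Main
import Pool.Agent.W381.PK.Phi
import Pool.Agent.W366.PK.LB
import Pool.Agent.W368.PK.Diff
import Pool.Agent.W924.PK.AN
import Pool.Agent.W351.PK.A1
import Pool.Agent.W427.PK.A2
import Pool.Agent.W101.PK.Jen
import Pool.Agent.W140.PK.Fat
import Pool.Agent.W882.PK.Exb
import Pool.Agent.W705.PK.Exs
import Pool.Agent.W763.PK.One
import Pool.Agent.W521.PK.EXK
import Pool.Agent.W143.PK.Exd

/-!
# MP_129fce_an: peak sets for `A_α` are not the zero sets of `G_α`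

For every `α ∈ (0, 1]` there is a countable closed subset `E` of the unit circle which is a peak set
for the analytic Lipschitz class `A_α` but not a zero set for the Gevrey class `G_α`.  So
`P_α ≠ Z(G_α)` for every `α ∈ (0, 1]`.
-/

namespace Pool.Agent.Results.MP_129fce_an.PeakNotGevrey

open Pool.Agent.W728.PK

theorem result :
    ∀ α : ℝ, 0 < α → α ≤ 1 →
      ∃ E : Set ℂ, E.Countable ∧ IsPeakSet α E ∧ ¬ IsGevreyZeroSet α E := by
  have hPB := Pool.Agent.W381.PK.t_PhiBound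
  have hPR := Pool.Agent.W381.PK.t_PhiRe
  have hPD := Pool.Agent.W381.PK.t_PhiDiff
  have hPA := Pool.Agent.W381.PK.t_PhiAn
  have hCL := Pool.Agent.W924.PK.t_CL
  exact main
    (peak (Pool.Agent.W366.PK.t_LB hPB hPR hCL) (Pool.Agent.W368.PK.t_DIFF hPB hPD hCL)
      (Pool.Agent.W924.PK.t_AN hPB hPA) hCL)
    Pool.Agent.W882.PK.t_EXB (Pool.Agent.W521.PK.t_EXK Pool.Agent.W705.PK.t_EXS)
    Pool.Agent.W143.PK.t_EXD Pool.Agent.W763.PK.t_ONE Pool.Agent.W351.PK.t_A1
    Pool.Agent.W427.PK.t_A2 (Pool.Agent.W140.PK.t_FAT Pool.Agent.W101.PK.t_JEN)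

end Pool.Agent.Results.MP_129fce_an.PeakNotGevrey
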